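import Pool.Agent.Helper77.CR.Defs

set_option autoImplicit false

/-!
# CR-IDENT: the identity for the Euler characteristics
-/

namespace Pool.Agent.Helper77.CR

open Pool.Agent.Helper9.FA (Item Cor Ang wfP labels)
open Pool.Agent.Helper28.TX (PV Pot)

variable {α : Type}

/-- number of `true` -/
def IDENT_C : List Bool → ℤ
  | [] => 0
  | a :: t => bz a + IDENT_C t

/-- number of adjacent pairs `true, true` -/
def IDENT_N : List Bool → ℤ
  | a :: b :: t => bz (a && b) + IDENT_N (b :: t)
  | _ => 0

theorem IDENT_C_append (l r : List Bool) : IDENT_C (l ++ r) = IDENT_C l + IDENT_C r := by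
  induction l with
  | nil => simp [IDENT_C]
  | cons a t ih => simp only [List.cons_append, IDENT_C, ih]; ring

theorem IDENT_N_append (l r : List Bool) (a : Bool) :
    IDENT_N (l ++ a :: r) = IDENT_N (l ++ [a]) + IDENT_N (a :: r) := by
  induction l with
  | nil => simp [IDENT_N]
  | cons b t ih =>
    cases t with
    | nil => simp [IDENT_N]
    | cons c t => simp only [List.cons_append, IDENT_N] at ih ⊢; rw [ih]; ring

theorem IDENT_gen {P : List (Item α)} {c : List Bool} {θ : List (PV Bool)}
    {e : List (Bool × Bool × Bool)} (h : Pot false false P c θ e) :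
    ((θ.map tw).sum : ℤ) - 2 * EU θ e =
      ((θ.map kap).sum : ℤ) - 2 * EC θ e + 2 * IDENT_C c - IDENT_N c := by
  induction h with
  | nil => simp [IDENT_C, IDENT_N, EU, EC, bz]
  | @cup P l r a m θ e h ih =>
    rw [IDENT_C_append, IDENT_N_append] at ih ⊢
    simp only [EU, EC, List.map_cons, List.sum_cons, if_true] at ih ⊢
    cases r with
    | nil =>
      simp only [IDENT_C, IDENT_N] at ih ⊢
      have key : 2 * bz (a && !m) - 2 * bz a + 2 * bz (a && m) = 0 := by
        cases a <;> cases m <;> rfl
      have hc : bz (m && a) = bz (a && m) := by rw [Bool.and_comm]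
      rw [hc] at ih
      linarith
    | cons b r =>
      simp only [IDENT_C, IDENT_N] at ih ⊢
      have key : 2 * bz (a && !m) - 2 * bz a + 2 * bz (a && m) = 0 := by
        cases a <;> cases m <;> rfl
      have hc : bz (m && a) = bz (a && m) := by rw [Bool.and_comm]
      rw [hc] at ih
      linarith
  | @cap P l r a m θ e h ih =>
    rw [IDENT_C_append, IDENT_N_append] at ih ⊢
    simp only [EU, EC, List.map_cons, List.sum_cons] at ih ⊢
    cases r with
    | nil =>
      simp only [IDENT_C, IDENT_N] at ih ⊢
      have key : 2 * bz (m && !a) - 2 * bz m + 2 * bz (a && m) = 0 := by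
        cases a <;> cases m <;> rfl
      have hc : bz (m && a) = bz (a && m) := by rw [Bool.and_comm]
      rw [hc]
      simp only [Bool.false_eq_true, if_false]
      linarith
    | cons b r =>
      simp only [IDENT_C, IDENT_N] at ih ⊢
      have key : 2 * bz (m && !a) - 2 * bz m + 2 * bz (a && m) = 0 := by
        cases a <;> cases m <;> rfl
      have hc : bz (m && a) = bz (a && m) := by rw [Bool.and_comm]
      rw [hc]
      simp only [Bool.false_eq_true, if_false]
      linarith
  | @box P l r x q θ e h ih =>
    rw [IDENT_C_append, IDENT_N_append] at ih ⊢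
    simp only [EU, EC, List.map_cons, List.sum_cons] at ih ⊢
    have key : (tw q : ℤ) = kap q - 2 * kc q + 2 * bz q.B - bz (q.L && q.B) - bz (q.B && q.R) +
        bz (q.L && q.T) + bz (q.T && q.R) := by
      obtain ⟨L, B, R, T⟩ := q
      cases L <;> cases B <;> cases R <;> cases T <;> rfl
    simp only [IDENT_C, IDENT_N] at ih ⊢
    rw [Nat.cast_add, Nat.cast_add]
    cases r with
    | nil =>
      simp only [IDENT_C, IDENT_N] at ih ⊢
      linarith
    | cons b r =>
      simp only [IDENT_C, IDENT_N] at ih ⊢
      linarith

theorem ident {P : List (Item α)} {θ : List (PV Bool)} {e : List (Bool × Bool × Bool)}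
    (h : Pot false false P [false, false] θ e) :
    ((θ.map tw).sum : ℤ) - 2 * EU θ e = ((θ.map kap).sum : ℤ) - 2 * EC θ e := by
  have := IDENT_gen h
  simp only [IDENT_C, IDENT_N, bz] at this
  simpa using this

end Pool.Agent.Helper77.CR
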